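import Mathlib
import Pool.Agent.Helper383.WaveDefs
import Pool.Agent.Helper383.WaveWell2
import Pool.Agent.Helper420.SC.FDefs
import Pool.Agent.Helper420.SC.FMain

set_option autoImplicit false

open Set Filter Topology MeasureTheory intervalIntegral

namespace Pool.Agent.Results.MP_4c4330_an.DimensionOneAndSupercritical

open Pool.Agent.Helper383.WaveDefs Pool.Agent.Helper383.WaveFinal Pool.Agent.Helper383.WaveWell
open Pool.Agent.Helper383.WaveWell2
open Pool.Agent.Helper420

/-- `u_tt - Δu + a|u_t|^α u_t = 0` with Dirichlet conditions.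

(1) Dimension one: on every bounded interval `(A, B)` every state of the energy space (slope `w0`,
square integrable with integral zero, velocity `v0`, square integrable) is the initial state of a
solution in the energy space, this solution is unique, and if its initial state is not zero, its
energy is bounded above and below by multiples of `(1 + t) ^ (-2 / α)` for all `t ≥ 0`.

(2) Dimension `N ≥ 3`, `α > 4 / (N - 2)`, `Ω` open, bounded and not empty: every state is the start
of a trajectory of the semigroup, the distance of two trajectories never exceeds its initial value,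
time shifts of trajectories are trajectories, and for every `ρ > 0` on `[0, ∞)` with `ρ(t) → 0` the
nonzero states whose trajectories have `sup_t energy / ρ(t) = ∞` are dense in the energy space. -/
theorem result :
    (∀ a al A B : ℝ, 0 < a → 0 < al → A < B →
      (∀ v0 w0 : ℝ → ℝ, MemLp v0 2 (volume.restrict (Ioo A B)) →
        MemLp w0 2 (volume.restrict (Ioo A B)) → (∫ x in A..B, w0 x) = 0 →
        ∃ v w : ℝ → ℝ → ℝ, IsEnergySolution a al A B v w ∧ v 0 = v0 ∧ w 0 = w0) ∧
      (∀ v w v' w' : ℝ → ℝ → ℝ, IsEnergySolution a al A B v w → IsEnergySolution a al A B v' w' →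
        energyDist A B (v 0) (w 0) (v' 0) (w' 0) = 0 →
        ∀ t : ℝ, 0 ≤ t → energyDist A B (v t) (w t) (v' t) (w' t) = 0) ∧
      (∀ v w : ℝ → ℝ → ℝ, IsEnergySolution a al A B v w → 0 < energy A B (v 0) (w 0) →
        ∃ c C : ℝ, 0 < c ∧ 0 < C ∧ ∀ t : ℝ, 0 ≤ t →
          c * (1 + t) ^ (-2 / al) ≤ energy A B (v t) (w t) ∧
          energy A B (v t) (w t) ≤ C * (1 + t) ^ (-2 / al))) ∧
    (∀ (N : ℕ) (Ω : Set (EuclideanSpace ℝ (Fin N))) (a α : ℝ), 3 ≤ N → IsOpen Ω →
      Bornology.IsBounded Ω → Ω.Nonempty → 0 < a → 4 / ((N : ℝ) - 2) < α →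
      (∀ x, SCF.IsState Ω x → ∃ y, SCF.IsTrajectory Ω a α y ∧ y 0 = x) ∧
      (∀ x y, SCF.IsTrajectory Ω a α x → SCF.IsTrajectory Ω a α y → ∀ t, 0 ≤ t →
        SCF.sqDist Ω (x t) (y t) ≤ SCF.sqDist Ω (x 0) (y 0)) ∧
      (∀ x, SCF.IsTrajectory Ω a α x → ∀ s, 0 ≤ s → SCF.IsTrajectory Ω a α (fun t => x (s + t))) ∧
      ∀ ρ : ℝ → ℝ, (∀ t, 0 ≤ t → 0 < ρ t) → Tendsto ρ atTop (𝓝 0) →
        ∀ x, SCF.IsState Ω x → ∀ ε > 0, ∃ y, SCF.IsState Ω y ∧ SCF.sqDist Ω x y < ε ∧
          0 < SCF.energy Ω y ∧ ∀ z, SCF.IsTrajectory Ω a α z → z 0 = y →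
            ∀ C : ℝ, ∃ t, 0 ≤ t ∧ C * ρ t < SCF.energy Ω (z t)) := by
  refine ⟨?_, ?_⟩
  · intro a al A B ha hal hAB
    refine ⟨fun v0 w0 hv hw hm => exists_solution ha hal hAB hv hw hm, ?_,
      fun v w h hne => exact_rate ha hal hAB h hne⟩
    intro v w v' w' h h' h0 t ht
    have h1 := stab ha hal hAB h h' ht (D := 0) h0.le
    have h2 := dist_nonneg' hAB.le (v t) (w t) (v' t) (w' t)
    linarith
  · intro N Ω a α hN hΩo hΩb hne ha hα
    exact SC.supercritical_fns hN hΩo hΩb hne ha hα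

end Pool.Agent.Results.MP_4c4330_an.DimensionOneAndSupercritical
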