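import Mathlib
import Pool.Agent.Helper383.WaveDefs
import Pool.Agent.Helper383.WaveWell2

set_option autoImplicit false

open Set Filter Topology MeasureTheory intervalIntegral

namespace Pool.Agent.Results.MP_4c4330_an.IntervalAllSolutions

open Pool.Agent.Helper383.WaveDefs Pool.Agent.Helper383.WaveFinal Pool.Agent.Helper383.WaveWell
open Pool.Agent.Helper383.WaveWell2

/-- Sanity check: a classical solution is a solution in the energy space. -/
theorem classical_is_energy {a al A B : ℝ} (hAB : A < B) {u : ℝ → ℝ → ℝ}
    (hu : IsClassicalSolution a al A B u) :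
    IsEnergySolution a al A B (fun t x => deriv (fun r => u r x) t) (fun t x => deriv (u t) x) where
  memLp_velocity := fun t _ => L2_vel hu.smooth t
  memLp_slope := fun t _ => L2_slope hu.smooth t
  approx := fun T e he => ⟨u, hu, fun t _ _ => by simp [energyDist, he]⟩

/-- Let `(A, B)` be a bounded interval, `a > 0`, `al > 0`. (1) Every state `(u, u_t)` of the energy
space (given by the slope `w0 = u_x`, square integrable with integral zero, and the velocity `v0`,
square integrable) is the initial state of a solution in the energy space. (2) That solution is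
unique. (3) Every solution in the energy space whose initial state is not zero has energy bounded
above and below by multiples of `(1 + t) ^ (-2 / al)` for all `t >= 0`. -/
theorem result (a al A B : ℝ) (ha : 0 < a) (hal : 0 < al) (hAB : A < B) :
    (∀ v0 w0 : ℝ → ℝ, MemLp v0 2 (volume.restrict (Ioo A B)) →
      MemLp w0 2 (volume.restrict (Ioo A B)) → (∫ x in A..B, w0 x) = 0 →
      ∃ v w : ℝ → ℝ → ℝ, IsEnergySolution a al A B v w ∧ v 0 = v0 ∧ w 0 = w0) ∧
    (∀ v w v' w' : ℝ → ℝ → ℝ, IsEnergySolution a al A B v w → IsEnergySolution a al A B v' w' →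
      energyDist A B (v 0) (w 0) (v' 0) (w' 0) = 0 →
      ∀ t : ℝ, 0 ≤ t → energyDist A B (v t) (w t) (v' t) (w' t) = 0) ∧
    (∀ v w : ℝ → ℝ → ℝ, IsEnergySolution a al A B v w → 0 < energy A B (v 0) (w 0) →
      ∃ c C : ℝ, 0 < c ∧ 0 < C ∧ ∀ t : ℝ, 0 ≤ t →
        c * (1 + t) ^ (-2 / al) ≤ energy A B (v t) (w t) ∧
        energy A B (v t) (w t) ≤ C * (1 + t) ^ (-2 / al)) := by
  refine ⟨fun v0 w0 hv hw hm => exists_solution ha hal hAB hv hw hm, ?_,
    fun v w h hne => exact_rate ha hal hAB h hne⟩
  intro v w v' w' h h' h0 t ht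
  have h1 := stab ha hal hAB h h' ht (D := 0) h0.le
  have h2 := dist_nonneg' hAB.le (v t) (w t) (v' t) (w' t)
  linarith

end Pool.Agent.Results.MP_4c4330_an.IntervalAllSolutions
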